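import Pool.Agent.Helper38.MR.Spec

/-!
# Module CORE: exponential lower bound for monotone real circuits separating cliques and colourings
-/

set_option autoImplicit false

namespace Pool.Agent.Helper41.MR

open Pool.Agent.Helper38.MR

variable {m : ℕ}

/-! ### running a circuit -/

theorem run_append {E : Type} (d : E → ℝ) (C : List (Gate E)) (g : Gate E) :
    run d (C ++ [g]) = run d C ++ [g.val d (run d C)] := by
  unfold run
  rw [List.foldl_append]
  rfl

theorem run_length {E : Type} (d : E → ℝ) (C : List (Gate E)) : (run d C).length = C.length := by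
  induction C using List.reverseRecOn with
  | nil => rfl
  | append_singleton C g ih => rw [run_append]; simp [ih]

/-- value of gate `j` -/
noncomputable def gv {E : Type} (D : E → Graph m → ℝ) (C : List (Gate E)) (j : ℕ) (x : Graph m) : ℝ :=
  (run (fun e => D e x) C).getD j 0

theorem gv_append_lt {E : Type} (D : E → Graph m → ℝ) (C : List (Gate E)) (g : Gate E) {j : ℕ}
    (hj : j ≠ C.length) (x : Graph m) : gv D (C ++ [g]) j x = gv D C j x := by
  unfold gv
  rw [run_append]
  rcases lt_or_gt_of_ne hj with h | h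
  · rw [List.getD_append _ _ _ _ (by rw [run_length]; exact h)]
  · rw [List.getD_eq_default, List.getD_eq_default]
    · rw [run_length]; omega
    · rw [List.length_append, run_length]; simp; omega

theorem gv_append_eq {E : Type} (D : E → Graph m → ℝ) (C : List (Gate E)) (g : Gate E)
    (x : Graph m) : gv D (C ++ [g]) C.length x = g.val (fun e => D e x) (run (fun e => D e x) C) := by
  unfold gv
  rw [run_append]
  rw [List.getD_append_right _ _ _ _ (by rw [run_length])]
  rw [run_length]
  simp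

theorem out_eq {E : Type} (D : E → Graph m → ℝ) (C : List (Gate E)) (x : Graph m) :
    out (fun e => D e x) C = gv D C (C.length - 1) x := by
  unfold out gv
  rcases C.eq_nil_or_concat with rfl | ⟨C, g, rfl⟩
  · rfl
  · simp only [List.concat_eq_append]
    rw [run_append]
    have h1 : (C ++ [g]).length - 1 = (run (fun e => D e x) C).length := by
      rw [run_length]; simp
    rw [h1]
    simp [List.getLastD_eq_getLast?]

/-! ### Simple functions -/

theorem simple_antitone {f : Graph m → ℝ} (hf : Simple f) : Antitone f := by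
  rcases hf with ⟨a, ha⟩ | ⟨e, a, b, hab, h⟩
  · intro x y _
    rw [ha, ha]
  · intro x y hxy
    rw [h, h]
    by_cases h1 : x e = true
    · have h2 : y e = true := Bool.le_iff_imp.mp (hxy e) h1
      rw [if_pos h1, if_pos h2]
    · rw [if_neg h1]
      split_ifs
      · exact hab
      · exact le_rfl

theorem rnk_id : rnk (fun i : Fin m => i) = 0 := by
  unfold rnk
  rw [Finset.image_id']
  simp

theorem le_mpt_id (x : Graph m) : x ≤ mpt (fun i : Fin m => i) := by
  intro e
  have : mpt (fun i : Fin m => i) e = true := by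
    unfold mpt
    simp only [decide_eq_true_eq]
    exact e.2.ne
  rw [this]
  exact Bool.le_true _

theorem clq_empty_le (x : Graph m) : clq (∅ : Finset (Fin m)) ≤ x := by
  intro e
  have : clq (∅ : Finset (Fin m)) e = false := by
    unfold clq
    simp
  rw [this]
  exact Bool.false_le _

/-- merging the two ends of an edge -/
def mrg (e : Edge m) (w : Fin m) : Fin m := if w = e.1.2 then e.1.1 else w

theorem mpt_mrg (e e' : Edge m) : mpt (mrg e) e' = false ↔ e' = e := by
  unfold mpt mrg
  rw [decide_eq_false_iff_not, not_not]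
  have h1 := e.2
  have h2 := e'.2
  constructor
  · intro h
    split_ifs at h with ha hb hb
    · rw [ha, hb] at h2; exact absurd h2 (lt_irrefl _)
    · rw [ha, ← h] at h2
      exact absurd h1 (not_lt.2 h2.le)
    · apply Subtype.ext
      exact Prod.ext h hb
    · rw [h] at h2; exact absurd h2 (lt_irrefl _)
  · rintro rfl
    rw [if_neg e'.2.ne, if_pos rfl]

theorem rnk_mrg (e : Edge m) : rnk (mrg e) ≤ 1 := by
  unfold rnk
  have h1 : Finset.univ.erase e.1.2 ⊆ Finset.univ.image (mrg e) := by
    intro w hw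
    rw [Finset.mem_erase] at hw
    rw [Finset.mem_image]
    exact ⟨w, Finset.mem_univ _, by unfold mrg; rw [if_neg hw.1]⟩
  have h2 := Finset.card_le_card h1
  rw [Finset.card_erase_of_mem (Finset.mem_univ _)] at h2
  simp only [Finset.card_univ, Fintype.card_fin] at h2
  omega

theorem simple_certC {f : Graph m → ℝ} (hf : Simple f) {s : ℕ} (hs : 3 ≤ s) : CertC s f := by
  intro x
  rcases hf with ⟨a, ha⟩ | ⟨e, a, b, hab, h⟩
  · refine ⟨fun i => i, by rw [rnk_id]; omega, le_mpt_id x, ?_⟩
    rw [ha, ha]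
  · by_cases hx : x e = true
    · refine ⟨fun i => i, by rw [rnk_id]; omega, le_mpt_id x, ?_⟩
      have h2 : mpt (fun i : Fin m => i) e = true := by
        unfold mpt
        simp only [decide_eq_true_eq]
        exact e.2.ne
      rw [h, h, if_pos hx, if_pos h2]
    · refine ⟨mrg e, lt_of_le_of_lt (rnk_mrg e) (by omega), ?_, ?_⟩
      · intro e'
        by_cases he : e' = e
        · rw [he]
          have : x e = false := by simpa using hx
          rw [this]
          exact Bool.false_le _
        · have : mpt (mrg e) e' = true := by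
            have := (not_congr (mpt_mrg e e')).2 he
            simpa using this
          rw [this]
          exact Bool.le_true _
      · have h2 : ¬ mpt (mrg e) e = true := by
          rw [(mpt_mrg e e).2 rfl]
          decide
        rw [h, h, if_neg hx, if_neg h2]

theorem simple_certD {f : Graph m → ℝ} (hf : Simple f) {s : ℕ} (hs : 3 ≤ s) : CertD s f := by
  intro x
  rcases hf with ⟨a, ha⟩ | ⟨e, a, b, hab, h⟩
  · refine ⟨∅, by simp; omega, clq_empty_le x, ?_⟩
    rw [ha, ha]
  · by_cases hx : x e = true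
    · refine ⟨{e.1.1, e.1.2}, ?_, ?_, ?_⟩
      · exact lt_of_le_of_lt (Finset.card_le_two) (by omega)
      · intro e'
        by_cases he : e' = e
        · rw [he, hx]
          exact Bool.le_true _
        · have : clq {e.1.1, e.1.2} e' = false := by
            unfold clq
            rw [decide_eq_false_iff_not]
            rintro ⟨h1, h2⟩
            simp only [Finset.mem_insert, Finset.mem_singleton] at h1 h2
            have h3 := e.2
            have h4 := e'.2
            rcases h1 with h1 | h1 <;> rcases h2 with h2 | h2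
            · rw [h1, h2] at h4; exact absurd h4 (lt_irrefl _)
            · exact he (Subtype.ext (Prod.ext h1 h2))
            · rw [h1, h2] at h4; exact absurd h3 (not_lt.2 h4.le)
            · rw [h1, h2] at h4; exact absurd h4 (lt_irrefl _)
          rw [this]
          exact Bool.false_le _
      · have h2 : clq {e.1.1, e.1.2} e = true := by
          unfold clq
          simp
        rw [h, h, if_pos hx, if_pos h2]
    · refine ⟨∅, by simp; omega, clq_empty_le x, ?_⟩
      have h2 : ¬ clq (∅ : Finset (Fin m)) e = true := by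
        unfold clq
        simp
      rw [h, h, if_neg hx, if_neg h2]

/-! ### The two approximators -/

open Classical in
/-- candidates for the minimum -/
noncomputable def candA (s : ℕ) (x : Graph m) : Finset (Finset (Fin m)) :=
  Finset.univ.filter fun A => A.card < s ∧ clq A ≤ x

open Classical in
/-- candidates for the maximum -/
noncomputable def candC (r : ℕ) (x : Graph m) : Finset (Fin m → Fin m) :=
  Finset.univ.filter fun c => rnk c < r ∧ x ≤ mpt c

theorem candA_ne {s : ℕ} (hs : 0 < s) (x : Graph m) : (candA s x).Nonempty := by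
  classical
  exact ⟨∅, Finset.mem_filter.2 ⟨Finset.mem_univ _, by simpa using hs, clq_empty_le x⟩⟩

theorem candC_ne {r : ℕ} (hr : 0 < r) (x : Graph m) : (candC r x).Nonempty := by
  classical
  exact ⟨fun i => i, Finset.mem_filter.2 ⟨Finset.mem_univ _, by rw [rnk_id]; exact hr, le_mpt_id x⟩⟩

/-- the smallest value on a small clique -/
noncomputable def lowD {s : ℕ} (hs : 0 < s) (F : Graph m → ℝ) (x : Graph m) : ℝ :=
  (candA s x).inf' (candA_ne hs x) (fun A => F (clq A))

/-- the largest value on a partition of small rank -/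
noncomputable def upC {r : ℕ} (hr : 0 < r) (F : Graph m → ℝ) (x : Graph m) : ℝ :=
  (candC r x).sup' (candC_ne hr x) (fun c => F (mpt c))

theorem lowD_le {s : ℕ} (hs : 0 < s) (F : Graph m → ℝ) (x : Graph m) {A : Finset (Fin m)}
    (hA : A.card < s) (hx : clq A ≤ x) : lowD hs F x ≤ F (clq A) := by
  classical
  exact Finset.inf'_le (fun A => F (clq A)) (Finset.mem_filter.2 ⟨Finset.mem_univ _, hA, hx⟩)

theorem exists_lowD {s : ℕ} (hs : 0 < s) (F : Graph m → ℝ) (x : Graph m) :
    ∃ A : Finset (Fin m), A.card < s ∧ clq A ≤ x ∧ lowD hs F x = F (clq A) := by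
  classical
  obtain ⟨A, hA, h⟩ := Finset.exists_mem_eq_inf' (candA_ne hs x) (fun A => F (clq A))
  have := (Finset.mem_filter.1 hA).2
  exact ⟨A, this.1, this.2, h⟩

theorem le_upC {r : ℕ} (hr : 0 < r) (F : Graph m → ℝ) (x : Graph m) {c : Fin m → Fin m}
    (hc : rnk c < r) (hx : x ≤ mpt c) : F (mpt c) ≤ upC hr F x := by
  classical
  exact Finset.le_sup' (fun c => F (mpt c)) (Finset.mem_filter.2 ⟨Finset.mem_univ _, hc, hx⟩)

theorem exists_upC {r : ℕ} (hr : 0 < r) (F : Graph m → ℝ) (x : Graph m) :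
    ∃ c : Fin m → Fin m, rnk c < r ∧ x ≤ mpt c ∧ upC hr F x = F (mpt c) := by
  classical
  obtain ⟨A, hA, h⟩ := Finset.exists_mem_eq_sup' (candC_ne hr x) (fun A => F (mpt A))
  have := (Finset.mem_filter.1 hA).2
  exact ⟨A, this.1, this.2, h⟩

theorem lowD_antitone {s : ℕ} (hs : 0 < s) (F : Graph m → ℝ) : Antitone (lowD hs F) := by
  intro x y hxy
  obtain ⟨A, h1, h2, h3⟩ := exists_lowD hs F x
  rw [h3]
  exact lowD_le hs F y h1 (h2.trans hxy)

theorem upC_antitone {r : ℕ} (hr : 0 < r) (F : Graph m → ℝ) : Antitone (upC hr F) := by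
  intro x y hxy
  obtain ⟨c, h1, h2, h3⟩ := exists_upC hr F y
  rw [h3]
  exact le_upC hr F x h1 (hxy.trans h2)

theorem lowD_certD {s : ℕ} (hs : 0 < s) (F : Graph m → ℝ) : CertD s (lowD hs F) := by
  intro x
  obtain ⟨A, h1, h2, h3⟩ := exists_lowD hs F x
  refine ⟨A, h1, h2, ?_⟩
  rw [h3]
  exact lowD_le hs F _ h1 le_rfl

theorem upC_certC {r : ℕ} (hr : 0 < r) (F : Graph m → ℝ) : CertC r (upC hr F) := by
  intro x
  obtain ⟨c, h1, h2, h3⟩ := exists_upC hr F x
  refine ⟨c, h1, h2, ?_⟩
  rw [h3]
  exact le_upC hr F _ h1 le_rfl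

theorem le_lowD {s : ℕ} (hs : 0 < s) {F : Graph m → ℝ} (hF : Antitone F) (x : Graph m) :
    F x ≤ lowD hs F x := by
  obtain ⟨A, h1, h2, h3⟩ := exists_lowD hs F x
  rw [h3]
  exact hF h2

theorem upC_le {r : ℕ} (hr : 0 < r) {F : Graph m → ℝ} (hF : Antitone F) (x : Graph m) :
    upC hr F x ≤ F x := by
  obtain ⟨c, h1, h2, h3⟩ := exists_upC hr F x
  rw [h3]
  exact hF h2

theorem trv_card {k q : ℕ} (σ : Fin k → Fin q) : (trv σ).card = k := by
  unfold trv
  rw [Finset.card_image_of_injective]
  · simp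
  · intro i j h
    have := finProdFinEquiv.injective h
    exact (Prod.ext_iff.1 this).1

theorem clq_mono {A B : Finset (Fin m)} (h : A ⊆ B) : clq A ≤ clq B := by
  intro e
  rw [Bool.le_iff_imp]
  unfold clq
  simp only [decide_eq_true_eq]
  exact fun h1 => ⟨h h1.1, h h1.2⟩

/-! ### The main induction -/

/-- the state after the circuit `C` -/
structure St {k q l s : ℕ} {E : Type} (D : E → Graph (k * q) → ℝ) (C : List (Gate E))
    (Cs Ds : ℕ → Graph (k * q) → ℝ) (EP : Finset (Fin k → Fin q))
    (EN : Finset (Fin (k * q) → Fin l)) : Prop where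
  cEP : EP.card * q ^ s ≤ C.length * ((4 * s) ^ s * q ^ k)
  cEN : EN.card * l ^ s ≤ C.length * ((2 * s ^ 2) ^ s * l ^ (k * q))
  aC : ∀ j, Antitone (Cs j)
  aD : ∀ j, Antitone (Ds j)
  sC : ∀ j, CertC s (Cs j)
  sD : ∀ j, CertD s (Ds j)
  pos : ∀ σ, σ ∉ EP → ∀ j, Cs j (clq (trv σ)) ≤ gv D C j (clq (trv σ)) ∧
    Ds j (clq (trv σ)) ≤ gv D C j (clq (trv σ))
  neg : ∀ χ, χ ∉ EN → ∀ j, gv D C j (mpt χ) ≤ Cs j (mpt χ) ∧ gv D C j (mpt χ) ≤ Ds j (mpt χ)

theorem exists_bad_bound_pos (hCP : specCP) {k q s N : ℕ} (T : Finset (Finset (Fin (k * q))))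
    (hT : T.card ≤ N) (hTs : ∀ A ∈ T, A.card = s) :
    ∃ B : Finset (Fin k → Fin q), B.card * q ^ s ≤ N * q ^ k ∧
      ∀ σ, (∃ A ∈ T, A ⊆ trv σ) → σ ∈ B := by
  classical
  refine ⟨T.biUnion (fun A => Finset.univ.filter fun σ : Fin k → Fin q => A ⊆ trv σ), ?_, ?_⟩
  · calc (T.biUnion (fun A => Finset.univ.filter fun σ : Fin k → Fin q => A ⊆ trv σ)).card * q ^ s
        ≤ (∑ A ∈ T, (Finset.univ.filter fun σ : Fin k → Fin q => A ⊆ trv σ).card) * q ^ s :=
          Nat.mul_le_mul_right _ Finset.card_biUnion_le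
      _ = ∑ A ∈ T, (Finset.univ.filter fun σ : Fin k → Fin q => A ⊆ trv σ).card * q ^ s := by
          rw [Finset.sum_mul]
      _ ≤ ∑ A ∈ T, q ^ k := by
          apply Finset.sum_le_sum
          intro A hA
          have h := hCP k q A
          rw [hTs A hA] at h
          refine le_trans (le_of_eq ?_) h
          congr 1
      _ = T.card * q ^ k := by rw [Finset.sum_const, smul_eq_mul]
      _ ≤ N * q ^ k := Nat.mul_le_mul_right _ hT
  · rintro σ ⟨A, hA, h⟩
    exact Finset.mem_biUnion.2 ⟨A, hA, Finset.mem_filter.2 ⟨Finset.mem_univ _, h⟩⟩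

theorem exists_bad_bound_neg (hCN : specCN) {m l s N : ℕ} (T : Finset (Fin m → Fin m))
    (hT : T.card ≤ N) (hTs : ∀ c ∈ T, rnk c = s) :
    ∃ B : Finset (Fin m → Fin l), B.card * l ^ s ≤ N * l ^ m ∧
      ∀ χ : Fin m → Fin l, (∃ c ∈ T, mpt χ ≤ mpt c) → χ ∈ B := by
  classical
  refine ⟨T.biUnion (fun c => Finset.univ.filter fun χ : Fin m → Fin l => mpt χ ≤ mpt c), ?_, ?_⟩
  · calc (T.biUnion (fun c => Finset.univ.filter
        fun χ : Fin m → Fin l => mpt χ ≤ mpt c)).card * l ^ s
        ≤ (∑ c ∈ T, (Finset.univ.filter fun χ : Fin m → Fin l => mpt χ ≤ mpt c).card) * l ^ s :=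
          Nat.mul_le_mul_right _ Finset.card_biUnion_le
      _ = ∑ c ∈ T, (Finset.univ.filter fun χ : Fin m → Fin l => mpt χ ≤ mpt c).card * l ^ s := by
          rw [Finset.sum_mul]
      _ ≤ ∑ c ∈ T, l ^ m := by
          apply Finset.sum_le_sum
          intro c hc
          have h := hCN m l c
          rw [hTs c hc] at h
          refine le_trans (le_of_eq ?_) h
          congr 1
      _ = T.card * l ^ m := by rw [Finset.sum_const, smul_eq_mul]
      _ ≤ N * l ^ m := Nat.mul_le_mul_right _ hT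
  · rintro χ ⟨c, hc, h⟩
    exact Finset.mem_biUnion.2 ⟨c, hc, Finset.mem_filter.2 ⟨Finset.mem_univ _, h⟩⟩

theorem exists_St (hP : specP) (hN : specN) (hCP : specCP) (hCN : specCN) {k q l s : ℕ}
    (hs : 3 ≤ s) {E : Type} (D : E → Graph (k * q) → ℝ) (hD : ∀ e, Simple (D e))
    (C : List (Gate E)) : (∀ g ∈ C, g.Mono) →
    ∃ (Cs Ds : ℕ → Graph (k * q) → ℝ) (EP : Finset (Fin k → Fin q))
      (EN : Finset (Fin (k * q) → Fin l)), St (s := s) D C Cs Ds EP EN := by
  classical
  have hs0 : 0 < s := by omega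
  induction C using List.reverseRecOn with
  | nil =>
    intro _
    have h0 : Simple (fun _ : Graph (k * q) => (0 : ℝ)) := Or.inl ⟨0, fun _ => rfl⟩
    refine ⟨fun _ _ => 0, fun _ _ => 0, ∅, ∅, ⟨by simp, by simp, fun _ => simple_antitone h0,
      fun _ => simple_antitone h0, fun _ => simple_certC h0 hs, fun _ => simple_certD h0 hs,
      fun σ _ j => ?_, fun χ _ j => ?_⟩⟩
    · have : gv D [] j (clq (trv σ)) = 0 := by unfold gv run; simp
      rw [this]; exact ⟨le_rfl, le_rfl⟩
    · have : gv D [] j (mpt χ) = 0 := by unfold gv run; simp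
      rw [this]; exact ⟨le_rfl, le_rfl⟩
  | append_singleton C g ih =>
    intro hmono
    obtain ⟨Cs, Ds, EP, EN, h⟩ := ih (fun g hg => hmono g (List.mem_append_left _ hg))
    have hg : g.Mono := hmono g (by simp)
    have hlen : (C ++ [g]).length = C.length + 1 := by simp
    -- it suffices to find the new approximators
    suffices hsuff : ∃ (Cn Dn : Graph (k * q) → ℝ) (BP : Finset (Fin k → Fin q))
        (BN : Finset (Fin (k * q) → Fin l)), Antitone Cn ∧ Antitone Dn ∧ CertC s Cn ∧ CertD s Dn ∧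
        BP.card * q ^ s ≤ (4 * s) ^ s * q ^ k ∧ BN.card * l ^ s ≤ (2 * s ^ 2) ^ s * l ^ (k * q) ∧
        (∀ σ, σ ∉ EP → σ ∉ BP → Cn (clq (trv σ)) ≤ gv D (C ++ [g]) C.length (clq (trv σ)) ∧
          Dn (clq (trv σ)) ≤ gv D (C ++ [g]) C.length (clq (trv σ))) ∧
        (∀ χ, χ ∉ EN → χ ∉ BN → gv D (C ++ [g]) C.length (mpt χ) ≤ Cn (mpt χ) ∧
          gv D (C ++ [g]) C.length (mpt χ) ≤ Dn (mpt χ)) by
      obtain ⟨Cn, Dn, BP, BN, h1, h2, h3, h4, h5, h6, h7, h8⟩ := hsuff
      refine ⟨fun j => if j = C.length then Cn else Cs j, fun j => if j = C.length then Dn else Ds j,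
        EP ∪ BP, EN ∪ BN, ⟨?_, ?_, ?_, ?_, ?_, ?_, ?_, ?_⟩⟩
      · rw [hlen]
        calc (EP ∪ BP).card * q ^ s ≤ (EP.card + BP.card) * q ^ s :=
              Nat.mul_le_mul_right _ (Finset.card_union_le _ _)
          _ = EP.card * q ^ s + BP.card * q ^ s := by ring
          _ ≤ C.length * ((4 * s) ^ s * q ^ k) + (4 * s) ^ s * q ^ k := add_le_add h.cEP h5
          _ = _ := by ring
      · rw [hlen]
        calc (EN ∪ BN).card * l ^ s ≤ (EN.card + BN.card) * l ^ s :=
              Nat.mul_le_mul_right _ (Finset.card_union_le _ _)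
          _ = EN.card * l ^ s + BN.card * l ^ s := by ring
          _ ≤ C.length * ((2 * s ^ 2) ^ s * l ^ (k * q)) + (2 * s ^ 2) ^ s * l ^ (k * q) :=
              add_le_add h.cEN h6
          _ = _ := by ring
      · intro j
        by_cases hj : j = C.length
        · simp only [hj, if_true]; exact h1
        · simp only [hj, if_false]; exact h.aC j
      · intro j
        by_cases hj : j = C.length
        · simp only [hj, if_true]; exact h2
        · simp only [hj, if_false]; exact h.aD j
      · intro j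
        by_cases hj : j = C.length
        · simp only [hj, if_true]; exact h3
        · simp only [hj, if_false]; exact h.sC j
      · intro j
        by_cases hj : j = C.length
        · simp only [hj, if_true]; exact h4
        · simp only [hj, if_false]; exact h.sD j
      · intro σ hσ j
        rw [Finset.notMem_union] at hσ
        by_cases hj : j = C.length
        · simp only [hj, if_true]; exact h7 σ hσ.1 hσ.2
        · simp only [hj, if_false]
          rw [gv_append_lt D C g hj]
          exact h.pos σ hσ.1 j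
      · intro χ hχ j
        rw [Finset.notMem_union] at hχ
        by_cases hj : j = C.length
        · simp only [hj, if_true]; exact h8 χ hχ.1 hχ.2
        · simp only [hj, if_false]
          rw [gv_append_lt D C g hj]
          exact h.neg χ hχ.1 j
    -- simple gates
    have hsimple : ∀ f : Graph (k * q) → ℝ, Simple f →
        (∀ x, gv D (C ++ [g]) C.length x = f x) →
        ∃ (Cn Dn : Graph (k * q) → ℝ) (BP : Finset (Fin k → Fin q))
        (BN : Finset (Fin (k * q) → Fin l)), Antitone Cn ∧ Antitone Dn ∧ CertC s Cn ∧ CertD s Dn ∧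
        BP.card * q ^ s ≤ (4 * s) ^ s * q ^ k ∧ BN.card * l ^ s ≤ (2 * s ^ 2) ^ s * l ^ (k * q) ∧
        (∀ σ, σ ∉ EP → σ ∉ BP → Cn (clq (trv σ)) ≤ gv D (C ++ [g]) C.length (clq (trv σ)) ∧
          Dn (clq (trv σ)) ≤ gv D (C ++ [g]) C.length (clq (trv σ))) ∧
        (∀ χ, χ ∉ EN → χ ∉ BN → gv D (C ++ [g]) C.length (mpt χ) ≤ Cn (mpt χ) ∧
          gv D (C ++ [g]) C.length (mpt χ) ≤ Dn (mpt χ)) := by
      intro f hf hval
      refine ⟨f, f, ∅, ∅, simple_antitone hf, simple_antitone hf, simple_certC hf hs,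
        simple_certD hf hs, by simp, by simp, ?_, ?_⟩
      · intro σ _ _
        rw [hval]; exact ⟨le_rfl, le_rfl⟩
      · intro χ _ _
        rw [hval]; exact ⟨le_rfl, le_rfl⟩
    cases g with
    | input e =>
      exact hsimple (D e) (hD e) (fun x => by rw [gv_append_eq]; rfl)
    | const c =>
      exact hsimple (fun _ => c) (Or.inl ⟨c, fun _ => rfl⟩) (fun x => by rw [gv_append_eq]; rfl)
    | op f i j =>
      have hf : ∀ a b c d : ℝ, a ≤ b → c ≤ d → f a c ≤ f b d := hg
      have hval : ∀ x, gv D (C ++ [Gate.op f i j]) C.length x = f (gv D C i x) (gv D C j x) := by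
        intro x
        rw [gv_append_eq]
        rfl
      obtain ⟨T1, hT1, hT1s, hT1b⟩ := hP (k * q) s s (Cs i) (Cs j) hs0 (h.aC i) (h.aC j) (h.sC i)
        (h.sC j)
      obtain ⟨T2, hT2, hT2s, hT2b⟩ := hN (k * q) s s (Ds i) (Ds j) (h.aD i) (h.aD j) (h.sD i)
        (h.sD j)
      obtain ⟨BP, hBP, hBP'⟩ := exists_bad_bound_pos hCP T1 hT1 hT1s
      obtain ⟨BN, hBN, hBN'⟩ := exists_bad_bound_neg (l := l) hCN T2 hT2 hT2s
      have aF : Antitone (fun x => f (Cs i x) (Cs j x)) := fun x y hxy =>
        hf _ _ _ _ (h.aC i hxy) (h.aC j hxy)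
      have aF' : Antitone (fun x => f (Ds i x) (Ds j x)) := fun x y hxy =>
        hf _ _ _ _ (h.aD i hxy) (h.aD j hxy)
      refine ⟨upC hs0 (fun x => f (Ds i x) (Ds j x)), lowD hs0 (fun x => f (Cs i x) (Cs j x)), BP, BN,
        upC_antitone _ _, lowD_antitone _ _, upC_certC _ _, lowD_certD _ _, hBP, hBN, ?_, ?_⟩
      · intro σ h1 h2
        rw [hval]
        constructor
        · refine le_trans (upC_le hs0 aF' _) ?_
          exact hf _ _ _ _ (h.pos σ h1 i).2 (h.pos σ h1 j).2
        · have hex : ∃ A, A ⊆ trv σ ∧ A.card < s ∧ Cs i (clq A) ≤ Cs i (clq (trv σ)) ∧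
              Cs j (clq A) ≤ Cs j (clq (trv σ)) := by
            by_contra hcon
            apply h2
            apply hBP'
            apply hT1b
            intro A hA hAs
            by_contra h3
            rw [not_or, not_lt, not_lt] at h3
            exact hcon ⟨A, hA, hAs, h3.1, h3.2⟩
          obtain ⟨A, hA, hAs, h3, h4⟩ := hex
          refine le_trans (lowD_le hs0 _ _ hAs (clq_mono hA)) ?_
          exact hf _ _ _ _ (h3.trans (h.pos σ h1 i).1) (h4.trans (h.pos σ h1 j).1)
      · intro χ h1 h2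
        rw [hval]
        constructor
        · have hex : ∃ c : Fin (k * q) → Fin (k * q), rnk c < s ∧ mpt χ ≤ mpt c ∧
              Ds i (mpt χ) ≤ Ds i (mpt c) ∧ Ds j (mpt χ) ≤ Ds j (mpt c) := by
            by_contra hcon
            apply h2
            apply hBN'
            apply hT2b
            intro c hc hcx
            by_contra h3
            rw [not_or, not_lt, not_lt] at h3
            exact hcon ⟨c, hc, hcx, h3.1, h3.2⟩
          obtain ⟨c, hc, hcx, h3, h4⟩ := hex
          refine le_trans ?_ (le_upC hs0 _ _ hc hcx)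
          exact hf _ _ _ _ ((h.neg χ h1 i).2.trans h3) ((h.neg χ h1 j).2.trans h4)
        · refine le_trans ?_ (le_lowD hs0 aF _)
          exact hf _ _ _ _ (h.neg χ h1 i).1 (h.neg χ h1 j).1

/-- CORE -/
theorem CORE (hP : specP) (hN : specN) (hCP : specCP) (hCN : specCN) (hCI : specCI) :
    specCORE := by
  classical
  intro s hs E C D θ hmono hD hpos hneg
  obtain ⟨Cs, Ds, EP, EN, h⟩ := exists_St (k := 4 * s ^ 2 + 1) (q := 8 * s) (l := 4 * s ^ 2) hP hN
    hCP hCN hs D hD C hmono
  by_contra hcon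
  rw [not_le] at hcon
  have hs0 : 0 < s := by omega
  -- a good transversal
  have hσ : ∃ σ, σ ∉ EP := by
    by_contra hall
    have huniv : EP = Finset.univ := by
      ext σ
      simp only [Finset.mem_univ, iff_true]
      by_contra h1
      exact hall ⟨σ, h1⟩
    have hc := h.cEP
    rw [huniv, Finset.card_univ, Fintype.card_fun, Fintype.card_fin, Fintype.card_fin] at hc
    have hqk : 0 < (8 * s) ^ (4 * s ^ 2 + 1) := by positivity
    have h1 : (8 * s) ^ s ≤ C.length * (4 * s) ^ s := by
      have h2 : (8 * s) ^ s * (8 * s) ^ (4 * s ^ 2 + 1) ≤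
          (C.length * (4 * s) ^ s) * (8 * s) ^ (4 * s ^ 2 + 1) := by
        calc (8 * s) ^ s * (8 * s) ^ (4 * s ^ 2 + 1) = (8 * s) ^ (4 * s ^ 2 + 1) * (8 * s) ^ s := by
              ring
          _ ≤ _ := hc
          _ = _ := by ring
      exact Nat.le_of_mul_le_mul_right h2 hqk
    have h3 : (8 * s) ^ s = 2 ^ s * (4 * s) ^ s := by
      rw [← Nat.mul_pow]; ring_nf
    rw [h3] at h1
    have h4 : 2 ^ s ≤ C.length := Nat.le_of_mul_le_mul_right h1 (by positivity)
    omega
  obtain ⟨σ, hσ⟩ := hσ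
  have hK := hpos (trv σ) (trv_card σ)
  rw [out_eq] at hK
  have h1 := (h.pos σ hσ (C.length - 1)).2.trans hK
  obtain ⟨A, hAs, hAx, hAv⟩ := h.sD (C.length - 1) (clq (trv σ))
  have h2 : Ds (C.length - 1) (clq A) ≤ θ := hAv.trans h1
  have hsub : (Finset.univ.filter fun χ : Fin ((4 * s ^ 2 + 1) * (8 * s)) → Fin (4 * s ^ 2) =>
      clq A ≤ mpt χ) ⊆ EN := by
    intro χ hχ
    have hχ' := (Finset.mem_filter.1 hχ).2
    by_contra hn
    have h3 := (h.neg χ hn (C.length - 1)).2
    have h4 := hneg χ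
    rw [out_eq] at h4
    have h5 := h.aD (C.length - 1) hχ'
    linarith
  have hcard := Finset.card_le_card hsub
  have hCI' := hCI ((4 * s ^ 2 + 1) * (8 * s)) (4 * s ^ 2) A (by nlinarith)
  have hCI2 : (4 * s ^ 2) ^ ((4 * s ^ 2 + 1) * (8 * s)) ≤ 2 * EN.card := by
    refine hCI'.trans ?_
    apply Nat.mul_le_mul_left
    refine le_trans (le_of_eq ?_) hcard
    apply congrArg Finset.card
    ext χ
    simp
  have hcN := h.cEN
  set X := (4 * s ^ 2) ^ ((4 * s ^ 2 + 1) * (8 * s)) with hX
  have hXpos : 0 < X := by rw [hX]; positivity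
  have h6 : (4 * s ^ 2) ^ s ≤ 2 * C.length * (2 * s ^ 2) ^ s := by
    have h7 : (4 * s ^ 2) ^ s * X ≤ (2 * C.length * (2 * s ^ 2) ^ s) * X := by
      calc (4 * s ^ 2) ^ s * X ≤ (4 * s ^ 2) ^ s * (2 * EN.card) := Nat.mul_le_mul_left _ hCI2
        _ = 2 * (EN.card * (4 * s ^ 2) ^ s) := by ring
        _ ≤ 2 * (C.length * ((2 * s ^ 2) ^ s * X)) := Nat.mul_le_mul_left _ hcN
        _ = _ := by ring
    exact Nat.le_of_mul_le_mul_right h7 hXpos
  have h8 : (4 * s ^ 2) ^ s = 2 ^ s * (2 * s ^ 2) ^ s := by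
    rw [← Nat.mul_pow]; ring_nf
  rw [h8] at h6
  have h9 : 2 ^ s ≤ 2 * C.length := Nat.le_of_mul_le_mul_right h6 (by positivity)
  omega

end Pool.Agent.Helper41.MR
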